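import Pool.Agent.H77.Q.Defs
import Pool.Agent.H77.P3.CodeSide

set_option autoImplicit false

/-!
Rooted codes with sides (MP_a46c6f_co, full Q1): the kernel, the inverse matrix and coordinates.
-/

namespace Pool.Agent.H43.Q

open Pool.Agent.H98.Code Pool.Agent.H17.TR Pool.Agent.H17.P3 Pool.Agent.H77.Q Pool.Agent.H77.P3

variable {V : Type} [Fintype V] [DecidableEq V]

/-- the row sums -/
def sM (M : V → V → ZMod 2) (τ : V → ZMod 2) (v : V) : ZMod 2 := ∑ x, M v x * τ x

/-- the word with the letters off the full word exactly at `τ` -/
def wd (M : V → V → ZMod 2) (d τ : V → ZMod 2) : V → K :=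
  fun v => (sM M τ v, d v * sM M τ v + τ v)

/-- coordinates of a rooted code -/
structure Co (B : Submodule (ZMod 2) (V → K)) (e : V) (M : V → V → ZMod 2) (d : V → ZMod 2) :
    Prop where
  sym : ∀ x y, M x y = M y x
  root : ∀ x, M e x = 0
  mem : ∀ τ, ∑ x, τ x = 0 → wd M d τ ∈ B
  rep : ∀ u ∈ B, (u e).1 = 0 → ∃ τ, ∑ x, τ x = 0 ∧ u = wd M d τ

section
variable {B : Submodule (ZMod 2) (V → K)} {e : V} {H : V → V → ZMod 2}
  {S : (V → K) → Finset V → Prop}

theorem lap_one (H : V → V → ZMod 2) (v : V) : lap H (fun _ => 1) v = 0 := by
  unfold lap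
  apply Finset.sum_eq_zero
  intro w _
  rw [show (1 : ZMod 2) + 1 = 0 from by decide, mul_zero]

theorem omega_mem (hH : IsMat B H) : (fun v => ((1, deg H v) : K)) ∈ B := by
  have h := word_mem hH (fun _ => 1)
  have : (fun v => (((fun _ => 1 : V → ZMod 2) v, deg H v * (fun _ => 1 : V → ZMod 2) v +
      lap H (fun _ => 1) v) : K)) = fun v => ((1, deg H v) : K) := by
    funext v
    show ((1, deg H v * 1 + lap H (fun _ => 1) v) : K) = _
    rw [lap_one, mul_one, add_zero]
  rwa [this] at h

/-- the kernel words -/
def Kr (B : Submodule (ZMod 2) (V → K)) (e : V) (w u : V → K) : Prop :=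
  u ∈ B ∧ u e = 0 ∧ ∀ v, u v = 0 ∨ u v = w v

theorem kr_nosplit (hB : IsCode B) {w : V → K} (hw : w ∈ B) (hw1 : ∀ v, (w v).1 = 1) {u : V → K}
    (hu : Kr B e w u) : ¬ ∃ g, Splits B u g := by
  rintro ⟨g, c₁, hc₁, c₂, hc₂, hs, hg1, hg2, hd⟩
  have hf := hB.iso c₁ hc₁ _ hw
  unfold form at hf
  rw [Finset.sum_eq_single g] at hf
  · rw [hg1, kf_z_left, hw1] at hf
    exact absurd hf (by decide)
  · intro v _ hvg
    rcases hd v hvg with h1 | h1
    · rw [h1, kf_zero_left]
    · have h2 : c₁ v = u v := by
        have := congrFun hs v
        rw [Pi.add_apply, h1, add_zero] at this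
        exact this
      rcases hu.2.2 v with h3 | h3
      · rw [h2, h3, kf_zero_left]
      · rw [h2, h3, kf_self]
  · intro hh
    exact absurd (Finset.mem_univ g) hh

/-- every kernel word contains an irreducible one at a given place -/
theorem kr_irr {w u : V → K} (hu : Kr B e w u) {y : V} (hy : u y ≠ 0) :
    ∃ k, Kr B e w k ∧ Irr B k ∧ k y ≠ 0 ∧ ∀ v, k v = 0 ∨ k v = u v := by
  classical
  have key : ∀ n : ℕ, ∀ k : V → K, Kr B e w k → k y ≠ 0 → (∀ v, k v = 0 ∨ k v = u v) →
      (Finset.univ.filter fun v => k v ≠ 0).card = n →
      ∃ k, Kr B e w k ∧ Irr B k ∧ k y ≠ 0 ∧ ∀ v, k v = 0 ∨ k v = u v := by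
    intro n
    induction n using Nat.strong_induction_on with
    | _ n ih =>
      intro k hk hky hku hn
      by_cases hirr : Irr B k
      · exact ⟨k, hk, hirr, hky, hku⟩
      unfold Irr at hirr
      push Not at hirr
      obtain ⟨d, hd, hdk, hd0, hdk'⟩ := hirr
      have hdKr : Kr B e w d := by
        refine ⟨hd, ?_, ?_⟩
        · rcases hdk e with h | h
          · exact h
          · rw [h]; exact hk.2.1
        · intro v
          rcases hdk v with h | h
          · exact Or.inl h
          · rw [h]; exact hk.2.2 v
      by_cases hdy : d y = 0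
      · -- use `k + d`
        have hval : ∀ v, (k + d) v = 0 ∨ (k + d) v = k v := by
          intro v
          rcases hdk v with h | h
          · right; rw [Pi.add_apply, h, add_zero]
          · left; rw [Pi.add_apply, h, k_add_self]
        have hKr : Kr B e w (k + d) := by
          refine ⟨B.add_mem hk.1 hd, ?_, ?_⟩
          · rw [Pi.add_apply, hk.2.1, hdKr.2.1, add_zero]
          · intro v
            rcases hval v with h | h
            · exact Or.inl h
            · rw [h]; exact hk.2.2 v
        refine ih _ ?_ (k + d) hKr ?_ ?_ rfl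
        · rw [← hn]
          apply Finset.card_lt_card
          rw [Finset.ssubset_iff_of_subset]
          · have : ∃ v, d v ≠ 0 := by
              by_contra hcon
              push Not at hcon
              exact hd0 (funext hcon)
            obtain ⟨v, hv⟩ := this
            have hv' : d v = k v := (hdk v).resolve_left hv
            refine ⟨v, ?_, ?_⟩
            · simp only [Finset.mem_filter, Finset.mem_univ, true_and]
              rw [← hv']; exact hv
            · simp only [Finset.mem_filter, Finset.mem_univ, true_and, not_not]
              rw [Pi.add_apply, hv', k_add_self]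
          · intro v hv
            simp only [Finset.mem_filter, Finset.mem_univ, true_and] at hv ⊢
            rcases hval v with h | h
            · exact absurd h hv
            · rw [← h]; exact hv
        · rw [Pi.add_apply, hdy, add_zero]; exact hky
        · intro v
          rcases hval v with h | h
          · exact Or.inl h
          · rw [h]; exact hku v
      · refine ih _ ?_ d hdKr hdy ?_ rfl
        · rw [← hn]
          apply Finset.card_lt_card
          rw [Finset.ssubset_iff_of_subset]
          · have : ∃ v, d v ≠ k v := by
              by_contra hcon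
              push Not at hcon
              exact hdk' (funext hcon)
            obtain ⟨v, hv⟩ := this
            have hv' : d v = 0 := (hdk v).resolve_right hv
            refine ⟨v, ?_, ?_⟩
            · simp only [Finset.mem_filter, Finset.mem_univ, true_and]
              intro h0
              exact hv (by rw [hv', h0])
            · simp only [Finset.mem_filter, Finset.mem_univ, true_and, not_not]
              exact hv'
          · intro v hv
            simp only [Finset.mem_filter, Finset.mem_univ, true_and] at hv ⊢
            rcases hdk v with h | h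
            · exact absurd h hv
            · rw [← h]; exact hv
        · intro v
          rcases hdk v with h | h
          · exact Or.inl h
          · rw [h]; exact hku v
  exact key _ u hu hy (fun v => Or.inr rfl) rfl

theorem kr_noS (hB : IsCode B) {w : V → K} (hw : w ∈ B) (hw1 : ∀ v, (w v).1 = 1)
    (hS : RSides B e S) : ∀ n : ℕ, ∀ (k : V → K) (Y : Finset V), Kr B e w k → Irr B k →
      Y.Nonempty → S k Y → Y.card = n → False := by
  intro n
  induction n using Nat.strong_induction_on with
  | _ n ih =>
    intro k Y hk hirr hne hSk hn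
    have wne : ∀ v, w v ≠ 0 := by
      intro v h
      have := hw1 v
      rw [h] at this
      exact absurd this (by decide)
    have wnz : ∀ v, w v ≠ z := by
      intro v h
      have := hw1 v
      rw [h] at this
      exact absurd this (by decide)
    obtain ⟨k', hk'B, h1, h2, h3⟩ := hS.part k Y hSk w hw (by
      intro v hv
      right
      rcases hk.2.2 v with h | h
      · exact absurd h hv
      · exact h.symm)
    have hk' : Kr B e w k' := by
      refine ⟨hk'B, h2 e hk.2.1 (hS.root k Y hSk), ?_⟩
      intro v
      by_cases hv : k v = 0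
      · by_cases hvY : v ∈ Y
        · right; exact h1 v hvY
        · left; exact h2 v hv hvY
      · rcases h3 v hv with h | h
        · exact Or.inl h
        · rw [h]; exact hk.2.2 v
    obtain ⟨y, hy⟩ := hne
    have hky : k' y ≠ 0 := by rw [h1 y hy]; exact wne y
    obtain ⟨k2, hk2, hirr2, hk2y, hle⟩ := kr_irr hk' hky
    rcases hS.mono k Y hSk hirr k2 hk2.1 (by
        intro v hv
        rcases hk2.2.2 v with h | h
        · rw [h] at hv; exact absurd hv (by decide)
        · rw [h] at hv; exact wnz v hv)
      (by intro h; exact hk2y (by rw [h]; rfl)) hirr2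
      (by
        intro v hv
        rcases hle v with h | h
        · exact Or.inl h
        · rw [h]; exact h3 v hv)
      (by
        intro v hv hvY
        rcases hle v with h | h
        · exact h
        · rw [h]; exact h2 v hv hvY) with h | ⟨Y', hY', hne', hS'⟩
    · exact kr_nosplit hB hw hw1 hk2 h
    · refine ih Y'.card ?_ k2 Y' hk2 hirr2 hne' hS' rfl
      rw [← hn]
      apply Finset.card_lt_card
      rw [Finset.ssubset_iff_of_subset hY']
      exact ⟨y, hy, fun h => hk2y (hS.zero k2 Y' hS' y h)⟩

theorem kr_zero (hB : IsCode B) {w : V → K} (hw : w ∈ B) (hw1 : ∀ v, (w v).1 = 1)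
    (hS : RSides B e S) {u : V → K} (hu : Kr B e w u) : u = 0 := by
  by_contra h0
  have : ∃ y, u y ≠ 0 := by
    by_contra hcon
    push Not at hcon
    exact h0 (funext hcon)
  obtain ⟨y, hy⟩ := this
  obtain ⟨k, hk, hirr, hky, _⟩ := kr_irr hu hy
  rcases hS.ex k hk.1 (by
      intro v hv
      rcases hk.2.2 v with h | h
      · rw [h] at hv; exact absurd hv (by decide)
      · rw [h] at hv
        have := hw1 v
        rw [hv] at this
        exact absurd this (by decide)) hk.2.1
    (by intro h; exact hky (by rw [h]; rfl)) hirr with h | ⟨Y, hne, hY⟩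
  · exact kr_nosplit hB hw hw1 hk h
  · exact kr_noS hB hw hw1 hS _ k Y hk hirr hne hY rfl

theorem kr_aux : ∀ a b : ZMod 2, ((a, b * a + 0) : K) = 0 ∨ ((a, b * a + 0) : K) = ((1, b) : K) := by
  decide

/-- the reduced Laplacian is injective -/
theorem inj' (hB : IsCode B) (hH : IsMat B H) (hS : RSides B e S) (p : V → ZMod 2)
    (he : p e = 0) (h0 : ∀ v, v ≠ e → lap H p v = 0) : p = 0 := by
  have hle : lap H p e = 0 := by
    have h1 := lap_sum hH.sym p
    rw [← Finset.add_sum_erase _ _ (Finset.mem_univ e)] at h1
    rw [Finset.sum_eq_zero (s := Finset.univ.erase e)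
      (fun v hv => h0 v (Finset.ne_of_mem_erase hv)), add_zero] at h1
    exact h1
  have hl : ∀ v, lap H p v = 0 := by
    intro v
    by_cases hv : v = e
    · rw [hv, hle]
    · exact h0 v hv
  have hm := word_mem hH p
  have hk : Kr B e (fun v => ((1, deg H v) : K)) (fun v => ((p v, deg H v * p v + lap H p v) : K)) := by
    refine ⟨hm, ?_, ?_⟩
    · show ((p e, deg H e * p e + lap H p e) : K) = 0
      rw [he, hle, mul_zero, add_zero]
      rfl
    · intro v
      show ((p v, deg H v * p v + lap H p v) : K) = 0 ∨
        ((p v, deg H v * p v + lap H p v) : K) = ((1, deg H v) : K)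
      rw [hl v]
      exact kr_aux _ _
  have h2 := kr_zero hB (omega_mem hH) (fun _ => rfl) hS hk
  funext v
  exact congrArg Prod.fst (congrFun h2 v)

/-- the inverse of the reduced Laplacian -/
theorem exists_inv' (hH : IsMat B H)
    (hinj : ∀ p : V → ZMod 2, p e = 0 → (∀ v, v ≠ e → lap H p v = 0) → p = 0) :
    ∃ M : V → V → ZMod 2, (∀ x y, M x y = M y x) ∧ (∀ x, M e x = 0) ∧
      (∀ u, u ≠ e → ∀ v, lap H (fun w => M w v) u = if u = v then 1 else 0) := by
  have hsurj : Function.Surjective
      (fun (p : V → ZMod 2) (v : V) => if v = e then p e else lap H p v) := by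
    rw [← Finite.injective_iff_surjective]
    intro p q hpq
    have hpe : p e = q e := by
      have := congrFun hpq e
      simpa using this
    have h1 : p + q = 0 := by
      apply hinj
      · rw [Pi.add_apply, hpe, CharTwo.add_self_eq_zero]
      · intro v hv
        have := congrFun hpq v
        simp only [if_neg hv] at this
        rw [lap_add, this, CharTwo.add_self_eq_zero]
    funext v
    have h2 := congrFun h1 v
    rw [Pi.add_apply, Pi.zero_apply] at h2
    revert h2
    generalize p v = a
    generalize q v = b
    revert a b
    decide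
  choose m hm using fun y : V => hsurj (fun v => if v = e then 0 else if v = y then 1 else 0)
  have hme : ∀ y, m y e = 0 := by
    intro y
    have := congrFun (hm y) e
    simpa using this
  have hml : ∀ y v, v ≠ e → lap H (m y) v = if v = y then 1 else 0 := by
    intro y v hv
    have := congrFun (hm y) v
    simpa only [if_neg hv] using this
  have hme' : ∀ v, m e v = 0 := by
    intro v
    have : m e = 0 := by
      apply hinj _ (hme e)
      intro v hv
      rw [hml e v hv, if_neg hv]
    rw [this]
    rfl
  have hsy : ∀ x y, m x y = m y x := by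
    intro x y
    by_cases hx : x = e
    · rw [hx, hme', hme]
    by_cases hy : y = e
    · rw [hy, hme', hme]
    have h1 := lap_adj hH.sym (m y) (m x)
    have h2 : ∑ v, m x v * lap H (m y) v = m x y := by
      rw [Finset.sum_eq_single y]
      · rw [hml y y hy, if_pos rfl, mul_one]
      · intro v _ hv
        by_cases hve : v = e
        · rw [hve, hme, zero_mul]
        · rw [hml y v hve, if_neg hv, mul_zero]
      · intro hh
        exact absurd (Finset.mem_univ y) hh
    have h3 : ∑ v, lap H (m x) v * m y v = m y x := by
      rw [Finset.sum_eq_single x]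
      · rw [hml x x hx, if_pos rfl, one_mul]
      · intro v _ hv
        by_cases hve : v = e
        · rw [hve, hme, mul_zero]
        · rw [hml x v hve, if_neg hv, zero_mul]
      · intro hh
        exact absurd (Finset.mem_univ x) hh
    rw [← h2, ← h3, h1]
  refine ⟨fun x y => m y x, fun x y => hsy y x, fun x => hme x, ?_⟩
  intro u hu v
  exact hml v u hu

/-- coordinates from the inverse matrix -/
theorem co_of (hH : IsMat B H) {M : V → V → ZMod 2} (hM : ∀ x y, M x y = M y x)
    (he : ∀ x, M e x = 0)
    (hi : ∀ u, u ≠ e → ∀ v, lap H (fun w => M w v) u = if u = v then 1 else 0) :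
    Co B e M (deg H) := by
  refine ⟨hM, he, ?_, ?_⟩
  · intro τ hτ
    have hl : ∀ v, lap H (fun w => sM M τ w) v = ∑ x, lap H (fun w => M w x) v * τ x := by
      intro v
      unfold lap sM
      rw [Finset.sum_congr rfl fun x _ => Finset.sum_mul _ _ _, Finset.sum_comm]
      refine Finset.sum_congr rfl fun w _ => ?_
      rw [← Finset.sum_add_distrib, Finset.mul_sum]
      exact Finset.sum_congr rfl fun x _ => by ring
    have hl1 : ∀ v, v ≠ e → lap H (fun w => sM M τ w) v = τ v := by
      intro v hv
      rw [hl v, Finset.sum_congr rfl fun x _ => by rw [hi v hv x]]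
      simp
    have hl2 : ∀ v, lap H (fun w => sM M τ w) v = τ v := by
      intro v
      by_cases hv : v = e
      · subst hv
        have h1 := lap_sum hH.sym (fun w => sM M τ w)
        rw [← Finset.add_sum_erase _ _ (Finset.mem_univ v),
          Finset.sum_congr rfl fun x hx => hl1 x (Finset.ne_of_mem_erase hx)] at h1
        rw [← Finset.add_sum_erase _ _ (Finset.mem_univ v)] at hτ
        revert h1 hτ
        generalize ∑ x ∈ Finset.univ.erase v, τ x = a
        generalize lap H (fun w => sM M τ w) v = b
        generalize τ v = c
        revert a b c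
        decide
      · exact hl1 v hv
    have h3 := word_mem hH (fun w => sM M τ w)
    have h4 : (fun v => (((fun w => sM M τ w) v, deg H v * (fun w => sM M τ w) v +
        lap H (fun w => sM M τ w) v) : K)) = wd M (deg H) τ := by
      funext v
      show ((sM M τ v, deg H v * sM M τ v + lap H (fun w => sM M τ w) v) : K) = _
      rw [hl2 v]
      rfl
    rwa [h4] at h3
  · intro u hu hue
    refine ⟨lap H (fun v => (u v).1), lap_sum hH.sym _, ?_⟩
    funext v
    have h1 := recover hH hM he hi (fun v => (u v).1) hue v
    have h2 := snd_eq hH hu v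
    apply Prod.ext
    · exact h1
    · show (u v).2 = deg H v * sM M _ v + _
      unfold sM
      rw [← h1, h2]

end

end Pool.Agent.H43.Q
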