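import Mathlib
import Pool.Agent.H81.Q.Own

set_option autoImplicit false

/-!
Closed pairs and closed paths which split or have own points (MP_a46c6f_co): relational form of
`H81.Q.own_main` (own sets need not be unique).
-/

namespace Pool.Agent.H43.Q

open Pool.Agent.H17.P3 (Pairs IsP4 Bad P4Split)
open Pool.Agent.H81.Q

variable {X : Type}

/-- **pairs and paths from own points**, relational form -/
theorem own_rel [Finite X] {M : X → X → ZMod 2} (hs : ∀ x y, M x y = M y x)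
    (R2 : X → X → Set X → Prop) (R4 : X → X → X → X → Set X → Prop)
    (h2 : ∀ a b, CP M a b → (∃ g, Half M ![a, b] ∅ g) ∨ ∃ Y, R2 a b Y)
    (o2 : ∀ a b Y, CP M a b → R2 a b Y → Y.Nonempty ∧ ∀ y ∈ Y, Half M ![a, b] Y y)
    (h4 : ∀ a b c d, CQ M a b c d → (∃ g, Half M ![a, b, c, d] ∅ g) ∨ ∃ Y, R4 a b c d Y)
    (o4 : ∀ a b c d Y, CQ M a b c d → R4 a b c d Y →
      Y.Nonempty ∧ ∀ y ∈ Y, Half M ![a, b, c, d] Y y)
    (n2 : ∀ a b Y, CP M a b → R2 a b Y → ∀ x y, CP M x y → x ∈ Y → (y ∈ Y ∨ y = a) →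
      (∃ g, Half M ![x, y] ∅ g) ∨ ∃ Y' ⊆ Y, R2 x y Y')
    (n4 : ∀ a b Y, CP M a b → R2 a b Y → ∀ p q r s, CQ M p q r s → p ∈ Y → q ∈ Y → r ∈ Y →
      s ∈ Y → (∃ g, Half M ![p, q, r, s] ∅ g) ∨ ∃ Y' ⊆ Y, R4 p q r s Y') :
    Pairs M ∧ P4Split M := by
  classical
  have key : ∀ (n : ℕ) (a b : X) (Y : Set X), Y.ncard = n → CP M a b → R2 a b Y →
      ∃ g, Half M ![a, b] ∅ g := by
    intro n
    induction n using Nat.strong_induction_on with
    | _ n ih =>
    intro a b Y hn hab hR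
    by_contra hspl
    obtain ⟨hne, hown⟩ := o2 a b Y hab hR
    have own : ∀ y ∈ Y, M y a = M a a + 1 ∧ M y b = M a a + 1 ∧
        ∀ x, x ∉ Y → M a x = M b x → M y x = M a x := fun y hy => half2 hs hab (hown y hy)
    have hsplit : ∀ g, M g a = M a a + 1 → M g b = M a a + 1 →
        (∀ x, M a x = M b x → M g x = M a x) → False := by
      intro g h1 h2 h3
      exact hspl ⟨g, half2' hs hab h1 h2 fun x _ => h3 x⟩
    -- a half outside `Y` which agrees outside `Y`
    have hsplit' : ∀ g, g ∉ Y → M g a = M a a + 1 → M g b = M a a + 1 →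
        (∀ x, x ∉ Y → M a x = M b x → M g x = M a x) → False := by
      intro g hg h1 h2 h3
      apply hsplit g h1 h2
      intro x hx
      by_cases hxY : x ∈ Y
      · rw [hs g x, (own x hxY).2.2 g hg (by rw [hs a g, hs b g, h1, h2]), hs a g, h1,
          hs a x, (own x hxY).1]
      · exact h3 x hxY hx
    have hcard : ∀ Z : Set X, Z ⊆ Y → ∀ x ∈ Y, x ∉ Z → Z.ncard < n := by
      intro Z hZ x hx hxZ
      rw [← hn]
      exact Set.ncard_lt_ncard ⟨hZ, fun h => hxZ (h hx)⟩ (Set.toFinite _)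
    -- closed pairs in `Y` split in `Y`
    have hpair : ∀ x ∈ Y, ∀ y ∈ Y, CP M x y → ∃ g ∈ Y, M g x = M x x + 1 ∧ M g y = M x x + 1 ∧
        ∀ p, M x p = M y p → M g p = M x p := by
      intro x hx y hy hxy
      have h5 : ∃ g, Half M ![x, y] ∅ g := by
        rcases n2 a b Y hab hR x y hxy hx (Or.inl hy) with h | ⟨Y', hsub, hR'⟩
        · exact h
        · refine ih _ (hcard _ hsub x hx ?_) x y Y' rfl hxy hR'
          intro hxx
          have h6 := (half2 hs hxy ((o2 x y Y' hxy hR').2 x hxx)).1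
          revert h6
          generalize M x x = A
          revert A
          decide
      obtain ⟨g, hg⟩ := h5
      obtain ⟨g1, g2, g3⟩ := half2 hs hxy hg
      have g3' : ∀ p, M x p = M y p → M g p = M x p := fun p => g3 p (Set.notMem_empty p)
      refine ⟨g, ?_, g1, g2, g3'⟩
      by_contra hgY
      obtain ⟨x1, x2, x3⟩ := own x hx
      obtain ⟨y1, y2, y3⟩ := own y hy
      apply hsplit' g hgY
      · rw [g3' a (by rw [x1, y1]), x1]
      · rw [g3' b (by rw [x2, y2]), x2]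
      · intro p hp hp2
        rw [g3' p (by rw [x3 p hp hp2, y3 p hp hp2]), x3 p hp hp2]
    have hpath : ∀ p ∈ Y, ∀ q ∈ Y, ∀ r ∈ Y, ∀ s ∈ Y, CQ M p q r s → ∃ g ∈ Y, Bad M p q r s g ∧
        ∀ x ∈ Y, M p x = M q x → M p x = M r x → M p x = M s x → M g x = M p x := by
      intro p hp q hq r hr s hs' hc
      rcases n4 a b Y hab hR p q r s hc hp hq hr hs' with ⟨g, hg⟩ | ⟨Y', hsub, hR'⟩
      · obtain ⟨g1, g2⟩ := half4 hs hc hg
        refine ⟨g, ?_, g1, fun x _ => g2 x (Set.notMem_empty x)⟩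
        by_contra hgY
        obtain ⟨p1, p2, p3⟩ := own p hp
        obtain ⟨q1, q2, q3⟩ := own q hq
        obtain ⟨r1, r2, r3⟩ := own r hr
        obtain ⟨s1, s2, s3⟩ := own s hs'
        have g3 : ∀ x, M p x = M q x → M p x = M r x → M p x = M s x → M g x = M p x :=
          fun x => g2 x (Set.notMem_empty x)
        apply hsplit' g hgY
        · rw [g3 a (by rw [p1, q1]) (by rw [p1, r1]) (by rw [p1, s1]), p1]
        · rw [g3 b (by rw [p2, q2]) (by rw [p2, r2]) (by rw [p2, s2]), p2]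
        · intro x hx hx2
          rw [g3 x (by rw [p3 x hx hx2, q3 x hx hx2]) (by rw [p3 x hx hx2, r3 x hx hx2])
            (by rw [p3 x hx hx2, s3 x hx hx2]), p3 x hx hx2]
      · obtain ⟨⟨y, hy⟩, hall⟩ := o4 p q r s Y' hc hR'
        obtain ⟨y1, y2⟩ := half4 hs hc (hall y hy)
        refine ⟨y, hsub hy, y1, ?_⟩
        intro x _ hx1 hx2 hx3
        apply y2 x _ hx1 hx2 hx3
        intro hxY
        have := (half4 hs hc (hall x hxY)).1.1
        apply this
        rw [hs x p, hs x s]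
        exact hx3
    -- the matrix on `Y`
    set M' : Y → Y → ZMod 2 := fun x y => M x.1 y.1 with hM'
    have hs1 : ∀ x y, M' x y = M' y x := fun x y => hs _ _
    have hP : Pairs M' := by
      intro u v huv hne'
      obtain ⟨g, hgY, g1, g2, g3⟩ := hpair u.1 u.2 v.1 v.2 ⟨huv, hne'⟩
      have g4 : M g g = M u.1 u.1 + 1 := by
        rw [g3 g (by rw [hs u.1 g, hs v.1 g, g1, g2]), hs u.1 g, g1]
      refine ⟨⟨g, hgY⟩, ?_, ?_, ?_, ?_⟩
      · show M g g ≠ M u.1 u.1
        rw [ne_iff']; exact g4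
      · show M g u.1 = M g g
        rw [g1, g4]
      · show M g v.1 = M g g
        rw [g2, g4]
      · intro x hx
        exact g3 x.1 hx
    have hQ : P4Split M' := by
      intro p q r s hp4 h0 h1 h1' h0'
      obtain ⟨g, hgY, g1, g2⟩ := hpath p.1 p.2 q.1 q.2 r.1 r.2 s.1 s.2
        ⟨⟨hp4.ab, hp4.bc, hp4.cd, hp4.ac, hp4.ad, hp4.bd⟩, h0, h1, h1', h0'⟩
      exact ⟨⟨g, hgY⟩, g1, fun x => g2 x.1 x.2⟩
    have hno := Pool.Agent.H81.P4.P3_holds Y M' hs1 hP hQ
    haveI : Nonempty Y := ⟨⟨hne.some, hne.some_mem⟩⟩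
    obtain ⟨r, lam, hr⟩ : ∃ (r : Y) (lam : ZMod 2), ∀ y, M' r y = lam := by
      rcases Pool.Agent.H81.P4.iso_or_full hs1 hP hno with ⟨x, hx⟩ | ⟨x, hx⟩
      · exact ⟨x, 0, hx⟩
      · exact ⟨x, 1, hx⟩
    have hrY : ∀ y ∈ Y, M r.1 y = lam := fun y hy => hr ⟨y, hy⟩
    obtain ⟨r1, r2, r3⟩ := own r.1 r.2
    by_cases hlam : lam = M a a
    · have hra : CP M r.1 a := by
        refine ⟨?_, ?_⟩
        · rw [hrY r.1 r.2, hlam]
        · rw [hrY r.1 r.2, ne_iff', hlam, r1]
      have h5 : ∃ g, Half M ![r.1, a] ∅ g := by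
        rcases n2 a b Y hab hR r.1 a hra r.2 (Or.inr rfl) with h | ⟨Y', hsub, hR'⟩
        · exact h
        · exfalso
          obtain ⟨⟨y, hy⟩, h⟩ := o2 r.1 a Y' hra hR'
          have h6 := (half2 hs hra (h y hy)).1
          rw [hs y r.1, hrY y (hsub hy), hrY r.1 r.2] at h6
          revert h6
          generalize lam = A
          revert A
          decide
      obtain ⟨g, hg⟩ := h5
      obtain ⟨g1, g2, g3⟩ := half2 hs hra hg
      rw [hrY r.1 r.2, hlam] at g1 g2
      have g3' : ∀ p, M r.1 p = M a p → M g p = M r.1 p := fun p => g3 p (Set.notMem_empty p)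
      have hgY : g ∉ Y := by
        intro hgY
        have h6 := hrY g hgY
        rw [hs r.1 g, g1, hlam] at h6
        revert h6
        generalize M a a = A
        revert A
        decide
      apply hsplit' g hgY g2
      · rw [g3' b (by rw [r2, (ne_iff' _ _).1 hab.2]), r2]
      · intro x hx hx2
        rw [g3' x (r3 x hx hx2), r3 x hx hx2]
    · have hlam' : lam = M a a + 1 := (ne_iff' _ _).1 hlam
      apply hsplit r.1 r1 r2
      intro x hx
      by_cases hxY : x ∈ Y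
      · rw [hrY x hxY, hs a x, (own x hxY).1, hlam']
      · exact r3 x hxY hx
  have key' : ∀ a b : X, CP M a b → ∃ g, Half M ![a, b] ∅ g := by
    intro a b hab
    rcases h2 a b hab with h | ⟨Y, hR⟩
    · exact h
    · exact key _ a b Y rfl hab hR
  constructor
  · intro u v huv hne
    obtain ⟨g, hg⟩ := key' u v ⟨huv, hne⟩
    obtain ⟨g1, g2, g3⟩ := half2 hs ⟨huv, hne⟩ hg
    have g3' : ∀ p, M u p = M v p → M g p = M u p := fun p => g3 p (Set.notMem_empty p)
    have g4 : M g g = M u u + 1 := by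
      rw [g3' g (by rw [hs u g, hs v g, g1, g2]), hs u g, g1]
    refine ⟨g, ?_, ?_, ?_, g3'⟩
    · rw [ne_iff']; exact g4
    · rw [g1, g4]
    · rw [g2, g4]
  · intro a b c d hp4 h0 h1 h1' h0'
    have hc : CQ M a b c d := ⟨hp4, h0, h1, h1', h0'⟩
    rcases h4 a b c d hc with ⟨g, hg⟩ | ⟨Y, hR⟩
    · obtain ⟨g1, g2⟩ := half4 hs hc hg
      exact ⟨g, g1, fun x => g2 x (Set.notMem_empty x)⟩
    · obtain ⟨⟨y, hy⟩, hall⟩ := o4 a b c d Y hc hR
      obtain ⟨y1, y2⟩ := half4 hs hc (hall y hy)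
      refine ⟨y, y1, ?_⟩
      intro x hx1 hx2 hx3
      apply y2 x _ hx1 hx2 hx3
      intro hxY
      have := (half4 hs hc (hall x hxY)).1.1
      apply this
      rw [hs x a, hs x d]
      exact hx3

end Pool.Agent.H43.Q
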