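import Pool.Agent.H43.Q.Co
import Pool.Agent.H43.Q.Own

set_option autoImplicit false

/-!
Rooted codes with sides (MP_a46c6f_co, full Q1): closed families of places, row (B).
-/

namespace Pool.Agent.H43.Q

open Pool.Agent.H98.Code Pool.Agent.H17.TR Pool.Agent.H17.P3 Pool.Agent.H77.Q
open Pool.Agent.H81.Q (Half CP CQ half2 half4 ne_iff')

variable {V : Type} [Fintype V] [DecidableEq V]

/-- the letters `α i` at the places `p i` -/
def pts {n : ℕ} (p : Fin n → V) (α : Fin n → ZMod 2) : V → ZMod 2 :=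
  fun v => ∑ i, if v = p i then α i else 0

section
variable {n : ℕ} {p : Fin n → V} {α : Fin n → ZMod 2}

omit [Fintype V] in
theorem pts_at (hp : Function.Injective p) (j : Fin n) : pts p α (p j) = α j := by
  unfold pts
  rw [Finset.sum_eq_single j]
  · rw [if_pos rfl]
  · intro i _ hij
    rw [if_neg]
    intro h
    exact hij (hp h).symm
  · intro hh
    exact absurd (Finset.mem_univ j) hh

omit [Fintype V] in
theorem pts_off {v : V} (hv : ∀ i, v ≠ p i) : pts p α v = 0 := by
  unfold pts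
  exact Finset.sum_eq_zero fun i _ => if_neg (hv i)

theorem pts_sum : ∑ v, pts p α v = ∑ i, α i := by
  unfold pts
  rw [Finset.sum_comm]
  refine Finset.sum_congr rfl fun i _ => ?_
  rw [Finset.sum_ite_eq' Finset.univ (p i) (fun _ => α i), if_pos (Finset.mem_univ _)]

theorem sM_pts {M : V → V → ZMod 2} (hs : ∀ x y, M x y = M y x) (v : V) :
    sM M (pts p α) v = ∑ i, α i * M (p i) v := by
  unfold sM pts
  rw [Finset.sum_congr rfl fun x _ => Finset.mul_sum _ _ _, Finset.sum_comm]
  refine Finset.sum_congr rfl fun i _ => ?_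
  rw [Finset.sum_congr rfl fun x _ => by rw [mul_ite, mul_zero],
    Finset.sum_ite_eq' Finset.univ (p i) (fun x => M v x * α i), if_pos (Finset.mem_univ _), hs v,
    mul_comm]

omit [DecidableEq V] in
theorem sM_add (M : V → V → ZMod 2) (σ τ : V → ZMod 2) (v : V) :
    sM M (fun x => σ x + τ x) v = sM M σ v + sM M τ v := by
  unfold sM
  rw [← Finset.sum_add_distrib]
  exact Finset.sum_congr rfl fun x _ => mul_add _ _ _

theorem sM_one (M : V → V → ZMod 2) (hs : ∀ x y, M x y = M y x) (y : V) (a : ZMod 2) (v : V) :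
    sM M (fun x => if x = y then a else 0) v = a * M y v := by
  unfold sM
  rw [Finset.sum_congr rfl fun x _ => by rw [mul_ite, mul_zero],
    Finset.sum_ite_eq' Finset.univ y (fun x => M v x * a), if_pos (Finset.mem_univ _), hs v,
    mul_comm]

/-- half words in coordinates -/
theorem half_of {M : V → V → ZMod 2} (hs : ∀ x y, M x y = M y x) (hp : Function.Injective p)
    {σ : V → ZMod 2} {g : V} {Y : Set V} (hσ : ∑ x, σ x = 0) (hg : ∀ i, g ≠ p i) (hg1 : σ g = 1)
    (hoff : ∀ v, v ≠ g → (∀ i, v ≠ p i) → σ v = 0) (hcol : ∀ j, sM M σ (p j) = σ (p j))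
    (hz : ∀ x, x ∉ Y → ∑ i, M (p i) x = 0 → sM M σ x = 0) : Half M p Y g := by
  have hdec : σ = fun v => (if v = g then 1 else 0) + pts p (fun i => σ (p i)) v := by
    funext v
    by_cases hv : v = g
    · rw [if_pos hv, hv, hg1, pts_off hg, add_zero]
    · rw [if_neg hv, zero_add]
      by_cases h : ∃ i, v = p i
      · obtain ⟨i, hi⟩ := h
        rw [hi, pts_at hp]
      · push Not at h
        rw [hoff v hv h, pts_off h]
  have hsum : ∀ v, sM M σ v = M g v + ∑ i, σ (p i) * M (p i) v := by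
    intro v
    conv_lhs => rw [hdec]
    rw [sM_add, sM_one M hs, sM_pts hs, one_mul]
  refine ⟨fun i => σ (p i), ?_, ?_, ?_⟩
  · have h1 : ∑ x, σ x = 1 + ∑ i, σ (p i) := by
      conv_lhs => rw [hdec]
      rw [Finset.sum_add_distrib, pts_sum, Finset.sum_ite_eq' Finset.univ g (fun _ => (1 : ZMod 2)),
        if_pos (Finset.mem_univ _)]
    rw [hσ] at h1
    revert h1
    generalize ∑ i, σ (p i) = A
    revert A
    decide
  · intro j
    have h1 := hcol j
    rw [hsum (p j)] at h1
    show M g (p j) = σ (p j) + ∑ i, σ (p i) * M (p i) (p j)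
    revert h1
    generalize ∑ i, σ (p i) * M (p i) (p j) = A
    generalize M g (p j) = C
    generalize σ (p j) = D
    revert A C D
    decide
  · intro x hx hx2
    have h1 := hz x hx hx2
    rw [hsum x] at h1
    show M g x = ∑ i, σ (p i) * M (p i) x
    revert h1
    generalize ∑ i, σ (p i) * M (p i) x = A
    generalize M g x = C
    revert A C
    decide

end

/-- closed families of places -/
structure Fam (M : V → V → ZMod 2) {n : ℕ} (p : Fin n → V) : Prop where
  inj : Function.Injective p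
  pos : 0 < n
  even : ∑ _i : Fin n, (1 : ZMod 2) = 0
  cl : ∀ j, ∑ i, M (p i) (p j) = 1
  irr : ∀ α : Fin n → ZMod 2, ∑ i, α i = 0 → (∀ j, ∑ i, α i * M (p i) (p j) = α j) →
    (∀ i, α i = 0) ∨ ∀ i, α i = 1
  sol : ∀ ρ : Fin n → ZMod 2, ∑ i, ρ i = 0 → ∃ (β : Fin n → ZMod 2) (c : ZMod 2),
    ∀ j, β j = ρ j + ∑ i, β i * M (p i) (p j) + c

/-- the word of a family -/
def FW (M : V → V → ZMod 2) (d : V → ZMod 2) {n : ℕ} (p : Fin n → V) : V → K :=
  wd M d (pts p fun _ => 1)

section
variable {B : Submodule (ZMod 2) (V → K)} {e : V} {M : V → V → ZMod 2} {d : V → ZMod 2}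
  {S : (V → K) → Finset V → Prop} {n : ℕ} {p : Fin n → V}

omit [DecidableEq V] in
theorem wd_tau (σ : V → ZMod 2) (v : V) : (wd M d σ v).2 + d v * (wd M d σ v).1 = σ v := by
  show d v * sM M σ v + σ v + d v * sM M σ v = σ v
  generalize d v * sM M σ v = A
  generalize σ v = C
  revert A C
  decide

omit [DecidableEq V] in
theorem wd_zero {σ : V → ZMod 2} {v : V} (h : wd M d σ v = 0) : sM M σ v = 0 ∧ σ v = 0 := by
  refine ⟨?_, ?_⟩
  · have : (wd M d σ v).1 = 0 := by rw [h]; rfl
    exact this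
  · rw [← wd_tau (M := M) (d := d) σ v, h]
    show (0 : ZMod 2) + d v * 0 = 0
    rw [mul_zero, add_zero]

theorem fw_fst (hs : ∀ x y, M x y = M y x) (v : V) : (FW M d p v).1 = ∑ i, M (p i) v := by
  show sM M (pts p fun _ => 1) v = _
  rw [sM_pts hs]
  exact Finset.sum_congr rfl fun i _ => one_mul _

theorem fw_at (hs : ∀ x y, M x y = M y x) (h : Fam M p) (j : Fin n) :
    FW M d p (p j) = (1, d (p j) + 1) := by
  apply Prod.ext
  · rw [fw_fst hs, h.cl]
  · show d (p j) * sM M (pts p fun _ => 1) (p j) + pts p (fun _ => 1) (p j) = d (p j) + 1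
    have h1 : sM M (pts p fun _ => 1) (p j) = 1 := by
      have := fw_fst (d := d) (p := p) hs (p j)
      rw [h.cl] at this
      exact this
    rw [h1, pts_at h.inj, mul_one]

theorem fw_off (hs : ∀ x y, M x y = M y x) {v : V} (hv : ∀ i, v ≠ p i) :
    FW M d p v = (∑ i, M (p i) v, d v * ∑ i, M (p i) v) := by
  apply Prod.ext
  · rw [fw_fst hs]
  · show d v * sM M (pts p fun _ => 1) v + pts p (fun _ => 1) v = d v * ∑ i, M (p i) v
    have h1 : sM M (pts p fun _ => 1) v = ∑ i, M (p i) v := fw_fst (d := d) (p := p) hs v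
    rw [h1, pts_off hv, add_zero]

theorem fw_zero (hs : ∀ x y, M x y = M y x) (h : Fam M p) {v : V}
    (h0 : ∑ i, M (p i) v = 0) : FW M d p v = 0 := by
  have hv : ∀ i, v ≠ p i := by
    intro i hi
    rw [hi, h.cl] at h0
    exact absurd h0 (by decide)
  rw [fw_off hs hv, h0, mul_zero]
  rfl

theorem fw_zero' (hs : ∀ x y, M x y = M y x) {v : V} (h0 : FW M d p v = 0) :
    ∑ i, M (p i) v = 0 := by
  rw [← fw_fst (d := d) hs v, h0]
  rfl

theorem fw_ne (hs : ∀ x y, M x y = M y x) (h : Fam M p) {v : V} (h0 : FW M d p v = 0) :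
    ∀ i, v ≠ p i := by
  intro i hi
  have h1 := fw_zero' hs h0
  rw [hi, h.cl] at h1
  exact absurd h1 (by decide)

theorem k_aux1 : ∀ s t x dd : ZMod 2, ((t, dd * t + x) : K) = 0 ∨
    ((t, dd * t + x) : K) = (s, dd * s) → x = 0 := by
  decide

theorem k_aux2 : ∀ t x dd : ZMod 2, ((t, dd * t + x) : K) = 0 ∨
    ((t, dd * t + x) : K) = (1, dd + 1) → t = x := by
  decide

theorem k_aux3 : ∀ t dd : ZMod 2, ((t, dd * t + t) : K) = 0 ∨
    ((t, dd * t + t) : K) = (1, dd + 1) := by
  decide

theorem k_aux4 : ∀ s t dd : ZMod 2, ((s, dd * s) : K) ≠ 0 →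
    ((t, dd * t + 0) : K) = 0 ∨ ((t, dd * t + 0) : K) = (s, dd * s) := by
  decide

/-- compatible words in coordinates -/
theorem tau_off (hs : ∀ x y, M x y = M y x) {σ : V → ZMod 2} {v : V} (hv : ∀ i, v ≠ p i)
    (h : wd M d σ v = 0 ∨ wd M d σ v = FW M d p v) : σ v = 0 := by
  rw [fw_off hs hv] at h
  exact k_aux1 _ _ _ _ h

theorem tau_at (hs : ∀ x y, M x y = M y x) (hF : Fam M p) {σ : V → ZMod 2} {j : Fin n}
    (h : wd M d σ (p j) = 0 ∨ wd M d σ (p j) = FW M d p (p j)) : sM M σ (p j) = σ (p j) := by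
  rw [fw_at hs hF] at h
  exact k_aux2 _ _ _ h

theorem fw_mem (hC : Co B e M d) (h : Fam M p) : FW M d p ∈ B := by
  apply hC.mem
  rw [pts_sum, h.even]

theorem fw_root (hC : Co B e M d) (h : Fam M p) : FW M d p e = 0 := by
  apply fw_zero hC.sym h
  exact Finset.sum_eq_zero fun i _ => by rw [hC.sym, hC.root]

theorem fw_free (hC : Co B e M d) (h : Fam M p) : ZFree (FW M d p) := by
  intro v hv
  by_cases hi : ∃ i, v = p i
  · obtain ⟨i, rfl⟩ := hi
    rw [fw_at hC.sym h] at hv
    have h2 : (1 : ZMod 2) = 0 := congrArg Prod.fst hv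
    exact absurd h2 (by decide)
  · push Not at hi
    rw [fw_off hC.sym hi] at hv
    have h1 : ∑ i, M (p i) v = 0 := congrArg Prod.fst hv
    have h2 : d v * ∑ i, M (p i) v = 1 := congrArg Prod.snd hv
    rw [h1, mul_zero] at h2
    exact absurd h2 (by decide)

theorem fw_nz (hC : Co B e M d) (h : Fam M p) : FW M d p ≠ 0 := by
  intro h0
  have h1 := fw_at (d := d) hC.sym h ⟨0, h.pos⟩
  rw [h0] at h1
  have h2 : (0 : ZMod 2) = 1 := congrArg Prod.fst h1
  exact absurd h2 (by decide)

theorem fw_irr (hC : Co B e M d) (h : Fam M p) : Irr B (FW M d p) := by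
  intro k hk hle
  have hke : (k e).1 = 0 := by
    rcases hle e with h1 | h1
    · rw [h1]; rfl
    · rw [h1, fw_root hC h]; rfl
  obtain ⟨σ, hσ, rfl⟩ := hC.rep k hk hke
  have hoff : ∀ v, (∀ i, v ≠ p i) → σ v = 0 := fun v hv => tau_off hC.sym hv (hle v)
  have hdec : σ = pts p fun i => σ (p i) := by
    funext v
    by_cases hi : ∃ i, v = p i
    · obtain ⟨i, rfl⟩ := hi
      rw [pts_at h.inj]
    · push Not at hi
      rw [hoff v hi, pts_off hi]
  have hcol : ∀ j, ∑ i, σ (p i) * M (p i) (p j) = σ (p j) := by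
    intro j
    have h1 := tau_at hC.sym h (hle (p j))
    have h2 : sM M σ (p j) = ∑ i, σ (p i) * M (p i) (p j) := by
      conv_lhs => rw [hdec]
      rw [sM_pts hC.sym]
    rw [← h2, h1]
  have hsum : ∑ i, σ (p i) = 0 := by
    rw [← hσ]
    conv_rhs => rw [hdec]
    rw [pts_sum]
  rcases h.irr (fun i => σ (p i)) hsum hcol with h1 | h1
  · left
    have : σ = fun _ => 0 := by
      rw [hdec]
      funext v
      unfold pts
      apply Finset.sum_eq_zero
      intro i _
      show (if v = p i then σ (p i) else 0) = 0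
      rw [h1 i, ite_self]
    rw [this]
    funext v
    have h3 : sM M (fun _ => (0 : ZMod 2)) v = 0 := by
      unfold sM
      simp
    show ((sM M (fun _ => 0) v, d v * sM M (fun _ => 0) v + 0) : K) = 0
    rw [h3, mul_zero, add_zero]
    rfl
  · right
    have : σ = pts p fun _ => 1 := by
      rw [hdec]
      congr 1
      funext i
      exact h1 i
    rw [this]
    rfl

/-- a splitting of the word of a family -/
theorem fam_split (hC : Co B e M d) (h : Fam M p) {g : V} (hg : Splits B (FW M d p) g) :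
    Half M p ∅ g := by
  obtain ⟨c₁, hc₁, c₂, hc₂, hsum, hg1, hg2, hd⟩ := hg
  have hval : ∀ v, v ≠ g → c₁ v = 0 ∨ c₁ v = FW M d p v := by
    intro v hv
    rcases hd v hv with h1 | h1
    · exact Or.inl h1
    · right
      have := congrFun hsum v
      rw [Pi.add_apply, h1, add_zero] at this
      exact this
  have hWg : FW M d p g = 0 := by
    have := congrFun hsum g
    rw [Pi.add_apply, hg1, hg2] at this
    rw [← this]
    decide
  have hke : (c₁ e).1 = 0 := by
    by_cases heg : e = g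
    · rw [heg, hg1]; rfl
    · rcases hval e heg with h1 | h1
      · rw [h1]; rfl
      · rw [h1, fw_root hC h]; rfl
  obtain ⟨σ, hσ, rfl⟩ := hC.rep c₁ hc₁ hke
  have hg0 : sM M σ g = 0 := congrArg Prod.fst hg1
  refine half_of hC.sym h.inj hσ (fw_ne hC.sym h hWg) ?_ ?_ ?_ ?_
  · have := wd_tau (M := M) (d := d) σ g
    rw [hg1] at this
    rw [← this]
    show (1 : ZMod 2) + d g * 0 = 1
    rw [mul_zero, add_zero]
  · intro v hv hv2
    exact tau_off hC.sym hv2 (hval v hv)
  · intro j
    exact tau_at hC.sym h (hval (p j) fun hh => fw_ne hC.sym h hWg j hh.symm)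
  · intro x _ hx
    by_cases hxg : x = g
    · rw [hxg, hg0]
    · have h1 := fw_zero (d := d) hC.sym h hx
      rcases hval x hxg with h2 | h2
      · exact (wd_zero h2).1
      · rw [h1] at h2
        exact (wd_zero h2).1

/-- own places of the word of a family -/
theorem fam_own (hC : Co B e M d) (hω : (fun v => ((1, d v) : K)) ∈ B) (hS : RSides B e S)
    (h : Fam M p) {Y : Finset V} (hY : S (FW M d p) Y) {y : V} (hy : y ∈ Y) : Half M p (Y : Set V) y := by
  have hWy : FW M d p y = 0 := hS.zero _ Y hY y hy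
  have hye : y ≠ e := fun hh => hS.root _ Y hY (hh ▸ hy)
  have hyp := fw_ne hC.sym h hWy
  have hpe : ∀ i, e ≠ p i := fw_ne hC.sym h (fw_root hC h)
  have hsy := fw_zero' hC.sym hWy
  obtain ⟨β, c, hβ⟩ := h.sol (fun j => M y (p j)) (by
    rw [← hsy]
    exact Finset.sum_congr rfl fun i _ => hC.sym _ _)
  -- the compatible word
  set q : V → ZMod 2 := fun v => ((if v = y then 1 else 0) + pts p β v) +
    (if v = e then 1 + ∑ i, β i else 0) with hq
  have hqs : ∑ v, q v = 0 := by
    rw [hq, Finset.sum_add_distrib, Finset.sum_add_distrib, pts_sum,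
      Finset.sum_ite_eq' Finset.univ y (fun _ => (1 : ZMod 2)), if_pos (Finset.mem_univ _),
      Finset.sum_ite_eq' Finset.univ e (fun _ => (1 + ∑ i, β i : ZMod 2)),
      if_pos (Finset.mem_univ _)]
    exact CharTwo.add_self_eq_zero _
  have hqM : ∀ v, sM M q v = M y v + ∑ i, β i * M (p i) v := by
    intro v
    have h1 : sM M q v = sM M (fun v => (if v = y then 1 else 0) + pts p β v) v +
        sM M (fun v => if v = e then 1 + ∑ i, β i else 0) v := by
      rw [hq, sM_add]
    rw [h1, sM_add, sM_one M hC.sym, sM_one M hC.sym, sM_pts hC.sym, hC.root, mul_zero, add_zero,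
      one_mul]
  have hqp : ∀ j, q (p j) = β j := by
    intro j
    show ((if p j = y then 1 else 0) + pts p β (p j)) + (if p j = e then 1 + ∑ i, β i else 0) = β j
    rw [if_neg (fun hh => hyp j hh.symm), if_neg (fun hh => hpe j hh.symm), pts_at h.inj,
      zero_add, add_zero]
  have hqo : ∀ v, v ≠ y → v ≠ e → (∀ i, v ≠ p i) → q v = 0 := by
    intro v h1 h2 h3
    show ((if v = y then 1 else 0) + pts p β v) + (if v = e then 1 + ∑ i, β i else 0) = 0
    rw [if_neg h1, if_neg h2, pts_off h3, zero_add, add_zero]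
  have hqy : q y = 1 := by
    show ((if y = y then 1 else 0) + pts p β y) + (if y = e then 1 + ∑ i, β i else 0) = 1
    rw [if_pos rfl, if_neg hye, pts_off hyp, add_zero, add_zero]
  set k : V → K := wd M d q + c • (fun v => ((1, d v) : K)) with hk
  have hkB : k ∈ B := B.add_mem (hC.mem q hqs) (B.smul_mem c hω)
  have hkv : ∀ v, k v = ((sM M q v + c, d v * (sM M q v + c) + q v) : K) := by
    intro v
    rw [hk]
    apply Prod.ext
    · show sM M q v + c * 1 = sM M q v + c
      rw [mul_one]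
    · show d v * sM M q v + q v + c * d v = d v * (sM M q v + c) + q v
      ring
  obtain ⟨k', hk'B, h1, h2, h3⟩ := hS.part _ Y hY k hkB (by
    intro v hv
    have hve : v ≠ e := by
      intro hh
      rw [hh, fw_root hC h] at hv
      exact hv rfl
    have hvy : v ≠ y := by
      intro hh
      rw [hh, hWy] at hv
      exact hv rfl
    rw [hkv v]
    by_cases hi : ∃ i, v = p i
    · obtain ⟨j, rfl⟩ := hi
      have h4 : sM M q (p j) + c = β j := by
        rw [hqM, hβ j]
      rw [h4, hqp, fw_at hC.sym h]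
      exact k_aux3 _ _
    · push Not at hi
      rw [fw_off hC.sym hi] at hv ⊢
      rw [hqo v hvy hve hi]
      exact k_aux4 _ _ _ hv)
  have hk'e : k' e = 0 := h2 e (fw_root hC h) (hS.root _ Y hY)
  obtain ⟨σ, hσ, rfl⟩ := hC.rep k' hk'B (by rw [hk'e]; rfl)
  have hσY : ∀ v ∈ Y, σ v = q v := by
    intro v hv
    have h4 := h1 v hv
    have h5 := wd_tau (M := M) (d := d) σ v
    rw [h4, hkv v] at h5
    rw [← h5]
    show d v * (sM M q v + c) + q v + d v * (sM M q v + c) = q v
    generalize d v * (sM M q v + c) = A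
    generalize q v = C
    revert A C
    decide
  refine half_of hC.sym h.inj hσ hyp ?_ ?_ ?_ ?_
  · rw [hσY y hy, hqy]
  · intro v hvy hv2
    by_cases hv0 : FW M d p v = 0
    · by_cases hvY : v ∈ Y
      · rw [hσY v hvY]
        exact hqo v hvy (fun hh => hS.root _ Y hY (hh ▸ hvY)) hv2
      · exact (wd_zero (h2 v hv0 hvY)).2
    · exact tau_off hC.sym hv2 (h3 v hv0)
  · intro j
    refine tau_at hC.sym h (h3 (p j) ?_)
    intro hh
    exact fw_ne hC.sym h hh j rfl
  · intro x hx hx2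
    exact (wd_zero (h2 x (fw_zero hC.sym h hx2) hx)).1

theorem fam_ex (hC : Co B e M d) (hS : RSides B e S) (h : Fam M p) :
    (∃ g, Half M p ∅ g) ∨ ∃ Y : Finset V, Y.Nonempty ∧ S (FW M d p) Y := by
  rcases hS.ex _ (fw_mem hC h) (fw_free hC h) (fw_root hC h) (fw_nz hC h) (fw_irr hC h) with
    ⟨g, hg⟩ | h1
  · exact Or.inl ⟨g, fam_split hC h hg⟩
  · exact Or.inr h1

theorem fam_mono (hC : Co B e M d) (hS : RSides B e S) (h : Fam M p) {m : ℕ} {q : Fin m → V}
    (hq : Fam M q) {Y : Finset V} (hY : S (FW M d p) Y)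
    (c1 : ∀ i, q i ∈ Y ∨ ∃ j, q i = p j)
    (c2 : ∀ j, (∀ i, q i ≠ p j) → ∑ i, M (q i) (p j) = 0)
    (c3 : ∀ v, v ∉ Y → (∀ j, v ≠ p j) → ∑ i, M (p i) v = 0 → ∑ i, M (q i) v = 0) :
    (∃ g, Half M q ∅ g) ∨ ∃ Y' : Finset V, Y' ⊆ Y ∧ Y'.Nonempty ∧ S (FW M d q) Y' := by
  rcases hS.mono _ Y hY (fw_irr hC h) _ (fw_mem hC hq) (fw_free hC hq) (fw_nz hC hq)
    (fw_irr hC hq) (by
      intro v hv
      by_cases hvq : ∃ i, v = q i
      · obtain ⟨i, rfl⟩ := hvq
        rcases c1 i with h1 | ⟨j, h1⟩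
        · exact absurd (hS.zero _ Y hY _ h1) hv
        · right
          rw [fw_at hC.sym hq, h1, fw_at hC.sym h]
      · push Not at hvq
        by_cases hvp : ∃ j, v = p j
        · obtain ⟨j, rfl⟩ := hvp
          left
          rw [fw_off hC.sym hvq, c2 j fun i hh => hvq i hh.symm, mul_zero]
          rfl
        · push Not at hvp
          rw [fw_off hC.sym hvp] at hv ⊢
          rw [fw_off hC.sym hvq]
          have := k_aux4 _ (∑ i, M (q i) v) _ hv
          rwa [add_zero] at this) (by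
      intro v hv hvY
      have hvp := fw_ne hC.sym h hv
      exact fw_zero hC.sym hq (c3 v hvY hvp (fw_zero' hC.sym hv))) with ⟨g, hg⟩ | h1
  · exact Or.inl ⟨g, fam_split hC hq hg⟩
  · exact Or.inr h1

end

end Pool.Agent.H43.Q
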