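import Pool.Agent.H43.Q.Fam

set_option autoImplicit false

/-!
Row (B) of the full question (MP_a46c6f_co): a rooted code with sides has an inverse matrix with
midpoints of closed pairs and bad points of closed paths.
-/

namespace Pool.Agent.H43.Q

open Pool.Agent.H98.Code Pool.Agent.H17.TR Pool.Agent.H17.P3 Pool.Agent.H77.Q
open Pool.Agent.H81.Q (Half CP CQ half2 half4 ne_iff')

variable {V : Type} [Fintype V] [DecidableEq V]

theorem z_sol : ∀ m r0 r1 : ZMod 2, r0 + r1 = 0 → m = 0 →
    r0 = r0 + (r0 * m + 0 * (m + 1)) + 0 ∧ 0 = r1 + (r0 * (m + 1) + 0 * m) + 0 := by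
  decide

theorem z_sol' : ∀ m r0 r1 : ZMod 2, r0 + r1 = 0 → m ≠ 0 →
    0 = r0 + (0 * m + 0 * (m + 1)) + r0 ∧ 0 = r1 + (0 * (m + 1) + 0 * m) + r0 := by
  decide

omit [Fintype V] [DecidableEq V] in
theorem fam2 {M : V → V → ZMod 2} (hs : ∀ x y, M x y = M y x) {a b : V} (h : CP M a b) :
    Fam M ![a, b] := by
  obtain ⟨hab, hne⟩ := h
  have hmab := (ne_iff' _ _).1 hne
  have hmba : M b a = M a a + 1 := by rw [hs]; exact hmab
  have hn : a ≠ b := by
    rintro rfl
    exact hne rfl
  refine ⟨?_, by decide, ?_, ?_, ?_, ?_⟩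
  · intro i j hij
    fin_cases i <;> fin_cases j
    · rfl
    · exact absurd hij hn
    · exact absurd hij.symm hn
    · rfl
  · rw [Fin.sum_univ_two]
    decide
  · intro j
    rw [Fin.sum_univ_two]
    fin_cases j
    · show M a a + M b a = 1
      rw [hmba]
      generalize M a a = A
      revert A
      decide
    · show M a b + M b b = 1
      rw [hmab, ← hab]
      generalize M a a = A
      revert A
      decide
  · intro α hα _
    rw [Fin.sum_univ_two] at hα
    have h1 : (α 0 = 0 ∧ α 1 = 0) ∨ (α 0 = 1 ∧ α 1 = 1) := by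
      revert hα
      generalize α 0 = A
      generalize α 1 = C
      revert A C
      decide
    rcases h1 with ⟨h2, h3⟩ | ⟨h2, h3⟩
    · left
      intro i
      fin_cases i
      · exact h2
      · exact h3
    · right
      intro i
      fin_cases i
      · exact h2
      · exact h3
  · intro ρ hρ
    rw [Fin.sum_univ_two] at hρ
    by_cases hm : M a a = 0
    · refine ⟨![ρ 0, 0], 0, ?_⟩
      have h1 := z_sol _ _ _ hρ hm
      intro j
      rw [Fin.sum_univ_two]
      fin_cases j
      · show ρ 0 = ρ 0 + (ρ 0 * M a a + 0 * M b a) + 0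
        rw [hmba]
        exact h1.1
      · show (0 : ZMod 2) = ρ 1 + (ρ 0 * M a b + 0 * M b b) + 0
        rw [hmab, ← hab]
        exact h1.2
    · refine ⟨![0, 0], ρ 0, ?_⟩
      have h1 := z_sol' _ _ _ hρ hm
      intro j
      rw [Fin.sum_univ_two]
      fin_cases j
      · show (0 : ZMod 2) = ρ 0 + (0 * M a a + 0 * M b a) + ρ 0
        rw [hmba]
        exact h1.1
      · show (0 : ZMod 2) = ρ 1 + (0 * M a b + 0 * M b b) + ρ 0
        rw [hmab, ← hab]
        exact h1.2

omit [Fintype V] [DecidableEq V] in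
theorem fam4 {M : V → V → ZMod 2} (hs : ∀ x y, M x y = M y x) {a b c d : V} (h : CQ M a b c d) :
    Fam M ![a, b, c, d] := by
  obtain ⟨⟨hab, hbc, hcd, hac, had, hbd⟩, ha, hb, hc, hd⟩ := h
  have hba : M b a = 1 := by rw [hs, hab]
  have hcb : M c b = 1 := by rw [hs, hbc]
  have hdc : M d c = 1 := by rw [hs, hcd]
  have hca : M c a = 0 := by rw [hs, hac]
  have hda : M d a = 0 := by rw [hs, had]
  have hdb : M d b = 0 := by rw [hs, hbd]
  have n1 : a ≠ b := by
    rintro rfl
    rw [ha] at hb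
    exact absurd hb (by decide)
  have n2 : a ≠ c := by
    rintro rfl
    rw [ha] at hc
    exact absurd hc (by decide)
  have n3 : a ≠ d := by
    rintro rfl
    rw [hab] at hdb
    exact absurd hdb (by decide)
  have n4 : b ≠ c := by
    rintro rfl
    rw [hba] at hca
    exact absurd hca (by decide)
  have n5 : b ≠ d := by
    rintro rfl
    rw [hb] at hd
    exact absurd hd (by decide)
  have n6 : c ≠ d := by
    rintro rfl
    rw [hc] at hd
    exact absurd hd (by decide)
  refine ⟨?_, by decide, ?_, ?_, ?_, ?_⟩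
  · intro i j hij
    fin_cases i <;> fin_cases j
    · rfl
    · exact absurd hij n1
    · exact absurd hij n2
    · exact absurd hij n3
    · exact absurd hij.symm n1
    · rfl
    · exact absurd hij n4
    · exact absurd hij n5
    · exact absurd hij.symm n2
    · exact absurd hij.symm n4
    · rfl
    · exact absurd hij n6
    · exact absurd hij.symm n3
    · exact absurd hij.symm n5
    · exact absurd hij.symm n6
    · rfl
  · rw [Fin.sum_univ_four]
    decide
  · intro j
    rw [Fin.sum_univ_four]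
    fin_cases j
    · show M a a + M b a + M c a + M d a = 1
      rw [ha, hba, hca, hda]
      decide
    · show M a b + M b b + M c b + M d b = 1
      rw [hab, hb, hcb, hdb]
      decide
    · show M a c + M b c + M c c + M d c = 1
      rw [hac, hbc, hc, hdc]
      decide
    · show M a d + M b d + M c d + M d d = 1
      rw [had, hbd, hcd, hd]
      decide
  · intro α hα hcol
    rw [Fin.sum_univ_four] at hα
    have e0 : α 0 * M a a + α 1 * M b a + α 2 * M c a + α 3 * M d a = α 0 := by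
      have := hcol 0
      rw [Fin.sum_univ_four] at this
      exact this
    have e1 : α 0 * M a b + α 1 * M b b + α 2 * M c b + α 3 * M d b = α 1 := by
      have := hcol 1
      rw [Fin.sum_univ_four] at this
      exact this
    have e3 : α 0 * M a d + α 1 * M b d + α 2 * M c d + α 3 * M d d = α 3 := by
      have := hcol 3
      rw [Fin.sum_univ_four] at this
      exact this
    rw [ha, hba, hca, hda] at e0
    rw [hab, hb, hcb, hdb] at e1
    rw [had, hbd, hcd, hd] at e3
    have h1 : (α 0 = 0 ∧ α 1 = 0 ∧ α 2 = 0 ∧ α 3 = 0) ∨ (α 0 = 1 ∧ α 1 = 1 ∧ α 2 = 1 ∧ α 3 = 1) := by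
      revert hα e0 e1 e3
      generalize α 0 = A
      generalize α 1 = C
      generalize α 2 = D
      generalize α 3 = E
      revert A C D E
      decide
    rcases h1 with ⟨h2, h3, h4, h5⟩ | ⟨h2, h3, h4, h5⟩
    · left
      intro i
      fin_cases i
      · exact h2
      · exact h3
      · exact h4
      · exact h5
    · right
      intro i
      fin_cases i
      · exact h2
      · exact h3
      · exact h4
      · exact h5
  · intro ρ hρ
    rw [Fin.sum_univ_four] at hρ
    refine ⟨![0, ρ 0, ρ 1, ρ 2 + ρ 0], 0, ?_⟩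
    intro j
    rw [Fin.sum_univ_four]
    fin_cases j
    · show (0 : ZMod 2) = ρ 0 + (0 * M a a + ρ 0 * M b a + ρ 1 * M c a + (ρ 2 + ρ 0) * M d a) + 0
      rw [ha, hba, hca, hda]
      revert hρ
      generalize ρ 0 = A
      generalize ρ 1 = C
      generalize ρ 2 = D
      generalize ρ 3 = E
      revert A C D E
      decide
    · show ρ 0 = ρ 1 + (0 * M a b + ρ 0 * M b b + ρ 1 * M c b + (ρ 2 + ρ 0) * M d b) + 0
      rw [hab, hb, hcb, hdb]
      revert hρ
      generalize ρ 0 = A
      generalize ρ 1 = C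
      generalize ρ 2 = D
      generalize ρ 3 = E
      revert A C D E
      decide
    · show ρ 1 = ρ 2 + (0 * M a c + ρ 0 * M b c + ρ 1 * M c c + (ρ 2 + ρ 0) * M d c) + 0
      rw [hac, hbc, hc, hdc]
      revert hρ
      generalize ρ 0 = A
      generalize ρ 1 = C
      generalize ρ 2 = D
      generalize ρ 3 = E
      revert A C D E
      decide
    · show ρ 2 + ρ 0 = ρ 3 + (0 * M a d + ρ 0 * M b d + ρ 1 * M c d + (ρ 2 + ρ 0) * M d d) + 0
      rw [had, hbd, hcd, hd]
      revert hρ
      generalize ρ 0 = A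
      generalize ρ 1 = C
      generalize ρ 2 = D
      generalize ρ 3 = E
      revert A C D E
      decide

section
variable {B : Submodule (ZMod 2) (V → K)} {e : V} {H M : V → V → ZMod 2} {d : V → ZMod 2}
  {S : (V → K) → Finset V → Prop}

theorem pairs_p4 (hC : Co B e M d) (hω : (fun v => ((1, d v) : K)) ∈ B) (hS : RSides B e S) :
    Pairs M ∧ P4Split M := by
  have hs := hC.sym
  refine own_rel hs (fun a b Y => ∃ Z : Finset V, (Z : Set V) = Y ∧ Z.Nonempty ∧
      S (FW M d ![a, b]) Z)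
    (fun a b c c' Y => ∃ Z : Finset V, (Z : Set V) = Y ∧ Z.Nonempty ∧
      S (FW M d ![a, b, c, c']) Z) ?_ ?_ ?_ ?_ ?_ ?_
  · intro a b h
    rcases fam_ex hC hS (fam2 hs h) with h1 | ⟨Z, h1, h2⟩
    · exact Or.inl h1
    · exact Or.inr ⟨_, Z, rfl, h1, h2⟩
  · rintro a b _ h ⟨Z, rfl, h1, h2⟩
    exact ⟨h1, fun y hy => fam_own hC hω hS (fam2 hs h) h2 hy⟩
  · intro a b c c' h
    rcases fam_ex hC hS (fam4 hs h) with h1 | ⟨Z, h1, h2⟩
    · exact Or.inl h1
    · exact Or.inr ⟨_, Z, rfl, h1, h2⟩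
  · rintro a b c c' _ h ⟨Z, rfl, h1, h2⟩
    exact ⟨h1, fun y hy => fam_own hC hω hS (fam4 hs h) h2 hy⟩
  · rintro a b _ h ⟨Z, rfl, h1, h2⟩ x y hxy hx hy
    have own : ∀ y ∈ Z, M y a = M a a + 1 ∧ M y b = M a a + 1 ∧
        ∀ x, x ∉ Z → M a x = M b x → M y x = M a x :=
      fun y hy => half2 hs h (fam_own hC hω hS (fam2 hs h) h2 hy)
    have hx' : x ∈ Z := hx
    obtain ⟨x1, x2, x3⟩ := own x hx'
    have e0 : ∀ v, ∑ i, M (![x, y] i) v = M x v + M y v := by
      intro v
      rw [Fin.sum_univ_two]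
      rfl
    have e1 : ∀ v, ∑ i, M (![a, b] i) v = M a v + M b v := by
      intro v
      rw [Fin.sum_univ_two]
      rfl
    have hy2 : (M y b = M a a + 1) ∧ (y ≠ a → M y a = M a a + 1) ∧
        ∀ v, v ∉ Z → M a v = M b v → M y v = M a v := by
      rcases hy with hy | hy
      · obtain ⟨y1, y2, y3⟩ := own y hy
        exact ⟨y2, fun _ => y1, y3⟩
      · subst hy
        exact ⟨(ne_iff' _ _).1 h.2, fun hh => absurd rfl hh, fun v _ _ => rfl⟩
    have g1 : ∀ i, ![x, y] i ∈ Z ∨ ∃ j, ![x, y] i = ![a, b] j := by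
      intro i
      fin_cases i
      · exact Or.inl hx'
      · rcases hy with hy | hy
        · exact Or.inl hy
        · exact Or.inr ⟨0, hy⟩
    have g2 : ∀ j, (∀ i, ![x, y] i ≠ ![a, b] j) → ∑ i, M (![x, y] i) (![a, b] j) = 0 := by
      intro j hj
      rw [e0]
      fin_cases j
      · show M x a + M y a = 0
        have hya : y ≠ a := fun hh => hj 1 hh
        rw [x1, hy2.2.1 hya]
        exact CharTwo.add_self_eq_zero _
      · show M x b + M y b = 0
        rw [x2, hy2.1]
        exact CharTwo.add_self_eq_zero _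
    have g3 : ∀ v, v ∉ Z → (∀ j, v ≠ ![a, b] j) → ∑ i, M (![a, b] i) v = 0 →
        ∑ i, M (![x, y] i) v = 0 := by
      intro v hv _ h6
      rw [e1] at h6
      have h7 : M a v = M b v := CharTwo.add_eq_zero.1 h6
      rw [e0, x3 v hv h7, hy2.2.2 v hv h7]
      exact CharTwo.add_self_eq_zero _
    rcases fam_mono hC hS (fam2 hs h) (fam2 hs hxy) h2 g1 g2 g3 with h3 | ⟨Z', h3, h4, h5⟩
    · exact Or.inl h3
    · exact Or.inr ⟨_, Finset.coe_subset.2 h3, Z', rfl, h4, h5⟩
  · rintro a b _ h ⟨Z, rfl, h1, h2⟩ p q r s hc hp hq hr hs'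
    have own : ∀ y ∈ Z, M y a = M a a + 1 ∧ M y b = M a a + 1 ∧
        ∀ x, x ∉ Z → M a x = M b x → M y x = M a x :=
      fun y hy => half2 hs h (fam_own hC hω hS (fam2 hs h) h2 hy)
    obtain ⟨p1, p2, p3⟩ := own p hp
    obtain ⟨q1, q2, q3⟩ := own q hq
    obtain ⟨r1, r2, r3⟩ := own r hr
    obtain ⟨s1, s2, s3⟩ := own s hs'
    have e0 : ∀ v, ∑ i, M (![p, q, r, s] i) v = M p v + M q v + M r v + M s v := by
      intro v
      rw [Fin.sum_univ_four]
      rfl
    have e1 : ∀ v, ∑ i, M (![a, b] i) v = M a v + M b v := by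
      intro v
      rw [Fin.sum_univ_two]
      rfl
    have e4 : ∀ A : ZMod 2, A + A + A + A = 0 := by decide
    have g1 : ∀ i, ![p, q, r, s] i ∈ Z ∨ ∃ j, ![p, q, r, s] i = ![a, b] j := by
      intro i
      left
      fin_cases i
      · exact hp
      · exact hq
      · exact hr
      · exact hs'
    have g2 : ∀ j, (∀ i, ![p, q, r, s] i ≠ ![a, b] j) →
        ∑ i, M (![p, q, r, s] i) (![a, b] j) = 0 := by
      intro j _
      rw [e0]
      fin_cases j
      · show M p a + M q a + M r a + M s a = 0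
        rw [p1, q1, r1, s1]
        exact e4 _
      · show M p b + M q b + M r b + M s b = 0
        rw [p2, q2, r2, s2]
        exact e4 _
    have g3 : ∀ v, v ∉ Z → (∀ j, v ≠ ![a, b] j) → ∑ i, M (![a, b] i) v = 0 →
        ∑ i, M (![p, q, r, s] i) v = 0 := by
      intro v hv _ h6
      rw [e1] at h6
      have h7 : M a v = M b v := CharTwo.add_eq_zero.1 h6
      rw [e0, p3 v hv h7, q3 v hv h7, r3 v hv h7, s3 v hv h7]
      exact e4 _
    rcases fam_mono hC hS (fam2 hs h) (fam4 hs hc) h2 g1 g2 g3 with h3 | ⟨Z', h3, h4, h5⟩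
    · exact Or.inl h3
    · exact Or.inr ⟨_, Finset.coe_subset.2 h3, Z', rfl, h4, h5⟩

/-- **row (B)** -/
theorem rowB (hB : IsCode B) (hH : IsMat B H) (hS : RSides B e S) :
    ∃ M : V → V → ZMod 2, (∀ x y, M x y = M y x) ∧ (∀ x, M e x = 0) ∧
      (∀ u, u ≠ e → ∀ v, (∑ w, H u w * (M u v + M w v)) = if u = v then 1 else 0) ∧
      Pairs M ∧ P4Split M := by
  obtain ⟨M, hM, he, hi⟩ := exists_inv' hH (fun p hp h0 => inj' hB hH hS p hp h0)
  have hC := co_of hH hM he hi
  exact ⟨M, hM, he, fun u hu v => hi u hu v, pairs_p4 hC (omega_mem hH) hS⟩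

end

end Pool.Agent.H43.Q
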